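import Pool.Agent.MP_13e7a1_an.H82.Spec

/-! Approximation of a bounded plurisubharmonic function by a decreasing smooth sequence. -/

set_option autoImplicit false
open scoped ContDiff Topology NNReal
open Set Metric MeasureTheory Filter
open Pool.Agent.MP_13e7a1_an.H82

namespace Pool.Agent.MP_13e7a1_an.H17

lemma L_congr (c : Ctx) (Z : E) {f g : E → ℝ} {x : E} (a : ℝ)
    (h : f =ᶠ[𝓝 x] fun y => g y + a) : c.L Z f x = c.L Z g x := by
  have h1 : fderiv ℝ f =ᶠ[𝓝 x] fderiv ℝ g := by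
    refine h.fderiv.trans (Eventually.of_forall fun y => ?_)
    exact fderiv_add_const a
  unfold Ctx.L
  rw [h1.fderiv_eq, h1.eq_of_nhds]

theorem ap (hD : SDisc) (hS : SSup) (hM : SSmooth) : SAP := by
  intro c p R K u hR hu hK
  obtain ⟨δ, hδ, hδR, lam, hF⟩ := hD c p R hR
  obtain ⟨A, ε₀, hA, hε₀, asm⟩ := hS.asm c p R δ K lam u hδ hδR hF hu hK
  set S : ℝ → E → ℝ := fun ε => supc (ball p R) u ε with hSdef
  have K0 : 0 ≤ K := (abs_nonneg _).trans (hK p (mem_ball_self hR))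
  have sub : ∀ t : ℝ, t ≤ δ → ball p t ⊆ ball p R := fun t ht => ball_subset_ball (ht.trans hδR)
  have key : ∀ ε γ : ℝ, 0 < ε → ε ≤ ε₀ → 0 < γ → ∃ g : E → ℝ, ContDiff ℝ ∞ g ∧
      ∀ x ∈ ball p (δ / 3), |g x - S ε x| ≤ γ ∧ ∀ Z : E,
        -(6 * A / (δ / 2) ^ 2 * (S (2 * ε) x - S ε x) + γ) * ‖Z‖ ^ 2 ≤ c.L Z g x := by
    intro ε γ hε hε' hγ
    obtain ⟨L1, h1⟩ := hS.lip p R K u hR hK ε hε
    obtain ⟨L2, h2⟩ := hS.lip p R K u hR hK (2 * ε) (by positivity)
    obtain ⟨U1, l1, e1⟩ := h1.extend_real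
    obtain ⟨U2, l2, e2⟩ := h2.extend_real
    obtain ⟨g, hg, hg'⟩ := hM c p R δ lam hF U1 (fun x => U2 x - U1 x) L1 A (δ / 2) (δ / 2) (δ / 3)
      l1 (l2.continuous.sub l1.continuous) (fun x hx => by
        have hx' := sub _ (by linarith) hx
        rw [← e1 hx', ← e2 hx']
        exact sub_nonneg.2 (hS.mono p R K u hR hK ε (2 * ε) hε (by linarith) x))
      hA (by positivity) (by linarith) (by positivity) (by linarith) (by linarith)
      (fun x hx Z hZ r hr hr1 => by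
        have hx' := sub _ (by linarith) hx
        have hZ' : Z ∈ ball (0 : E) δ := by rw [mem_ball_zero_iff, hZ]; linarith
        rw [← e1 hx', ← e2 hx']
        refine (asm ε hε hε' x hx Z hZ' r hr hr1).trans (le_of_eq ?_)
        refine Real.circleAverage_congr_sphere fun ζ hζ => e1 ?_
        refine hF.maps x (ball_subset_ball (by linarith) hx) Z hZ' ζ ?_
        rw [mem_sphere_zero_iff_norm, abs_of_pos hr] at hζ
        rw [mem_ball_zero_iff, hζ]; exact hr1) γ hγ
    refine ⟨g, hg, fun x hx => ?_⟩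
    have hx' := sub _ (by linarith) hx
    simp only [hSdef]
    rw [e1 hx', e2 hx']
    exact hg' x hx
  have q0 : ∀ j : ℕ, (0 : ℝ) < (1 / 2) ^ j := fun j => by positivity
  have q1 : ∀ j : ℕ, ((1 : ℝ) / 2) ^ j ≤ 1 := fun j => pow_le_one₀ (by norm_num) (by norm_num)
  have hε : ∀ j : ℕ, 0 < ε₀ * (1 / 2) ^ j := fun j => mul_pos hε₀ (q0 j)
  choose g hg hg' using fun j : ℕ => key (ε₀ * (1 / 2) ^ j) ((1 / 2) ^ j / 8) (hε j)
    (mul_le_of_le_one_right hε₀.le (q1 j)) (by have := q0 j; positivity)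
  let b : ContDiffBump p := ⟨δ * (3 / 10), δ / 3, by positivity, by linarith⟩
  have in1 : ∀ x ∈ closedBall p (δ / 4), x ∈ ball p b.rIn := fun x hx =>
    closedBall_subset_ball (show δ / 4 < δ * (3 / 10) by linarith) hx
  have in2 : ∀ x ∈ closedBall p (δ / 4), x ∈ ball p (δ / 3) := fun x hx =>
    closedBall_subset_ball (by linarith) hx
  have one : ∀ x ∈ closedBall p (δ / 4), b x = 1 := fun x hx =>
    b.one_of_mem_closedBall (ball_subset_closedBall (in1 x hx))
  have two : ∀ j : ℕ, 2 * (ε₀ * (1 / 2) ^ (j + 1)) = ε₀ * (1 / 2) ^ j := fun j => by ring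
  have mono : ∀ (j : ℕ) x, S (ε₀ * (1 / 2) ^ (j + 1)) x ≤ S (ε₀ * (1 / 2) ^ j) x := fun j x =>
    hS.mono p R K u hR hK _ _ (hε _) (by rw [← two j]; linarith [hε (j + 1)]) x
  have gap : ∀ (j : ℕ), ∀ x ∈ closedBall p (δ / 4),
      S (ε₀ * (1 / 2) ^ j) x - S (ε₀ * (1 / 2) ^ (j + 1)) x + (1 / 2) ^ (j + 1) / 8 ≤
        (g j x + (1 / 2) ^ j) - (g (j + 1) x + (1 / 2) ^ (j + 1)) := fun j x hx => by
    have a1 := abs_le.1 (hg' j x (in2 x hx)).1
    have a2 := abs_le.1 (hg' (j + 1) x (in2 x hx)).1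
    have a3 := q0 j
    rw [pow_succ ((1 : ℝ) / 2) j] at *
    linarith [a1.1, a2.2]
  refine ⟨δ / 4, by positivity, by linarith, fun j x => b x * (g j x + (1 / 2) ^ j),
    max (6 * A / (δ / 2) ^ 2) 1, K + 2, le_max_of_le_right zero_le_one,
    fun j => b.contDiff.mul ((hg j).add contDiff_const), fun j x => ?_, fun j x hx => ?_,
    fun x hx => ?_, fun j x hx Z => ?_⟩
  · by_cases hx : x ∈ ball p (δ / 3)
    · have a1 := abs_le.1 (hg' j x hx).1
      have a2 := abs_le.1 (hS.bdd p R K u hR hK _ (hε j) x (sub _ (by linarith) hx))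
      have a3 := q0 j
      have a4 := q1 j
      have a5 : |g j x + (1 / 2) ^ j| ≤ K + 2 := by
        simp only [hSdef] at a1
        rw [abs_le]; constructor <;> linarith [a1.1, a1.2, a2.1, a2.2]
      rw [abs_mul, abs_of_nonneg b.nonneg]
      exact (mul_le_of_le_one_left (abs_nonneg _) b.le_one).trans a5
    · have : b x = 0 := b.zero_of_le_dist (not_lt.1 hx)
      simp only [this, zero_mul, abs_zero]; linarith
  · simp only [one x hx, one_mul]
    linarith [gap j x hx, mono j x, q0 (j + 1)]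
  · simp only [one x hx, one_mul]
    have t0 : Tendsto (fun j : ℕ => ((1 : ℝ) / 2) ^ j) atTop (𝓝 0) :=
      tendsto_pow_atTop_nhds_zero_of_lt_one (by norm_num) (by norm_num)
    have t1 : Tendsto (fun j : ℕ => ε₀ * (1 / 2) ^ j) atTop (𝓝[>] 0) :=
      tendsto_nhdsWithin_iff.2 ⟨by simpa using t0.const_mul ε₀, Eventually.of_forall hε⟩
    have t2 := (hS.lim p R K u hR hK hu.1 x (sub _ (by linarith) (in2 x hx))).comp t1
    have t3 : Tendsto (fun j : ℕ => g j x - S (ε₀ * (1 / 2) ^ j) x) atTop (𝓝 0) :=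
      squeeze_zero_norm (fun j => (hg' j x (in2 x hx)).1) (by simpa using t0.div_const 8)
    have t4 := (t3.add t2).add t0
    simp only [zero_add, add_zero] at t4
    refine t4.congr fun j => ?_
    simp only [hSdef, Function.comp]
    ring
  · rw [L_congr c Z (g := g (j + 1)) ((1 / 2) ^ (j + 1))
      ((b.eventuallyEq_one_of_mem_ball (in1 x hx)).mono fun y hy => by
        simp only [hy, Pi.one_apply, one_mul])]
    refine le_trans ?_ ((hg' (j + 1) x (in2 x hx)).2 Z)
    simp only [one x hx, one_mul]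
    rw [two j]
    refine mul_le_mul_of_nonneg_right (neg_le_neg ?_) (sq_nonneg _)
    have a1 := gap j x hx
    have a2 := sub_nonneg.2 (mono j x)
    have a3 := q0 (j + 1)
    have a4 := mul_le_mul_of_nonneg_right (le_max_left (6 * A / (δ / 2) ^ 2) 1) a2
    have a5 := mul_le_mul_of_nonneg_right (le_max_right (6 * A / (δ / 2) ^ 2) 1)
      (show (0 : ℝ) ≤ (1 / 2) ^ (j + 1) / 8 by positivity)
    have a6 := mul_le_mul_of_nonneg_left a1
      (le_max_of_le_right zero_le_one : (0 : ℝ) ≤ max (6 * A / (δ / 2) ^ 2) 1)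
    linarith

end Pool.Agent.MP_13e7a1_an.H17
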